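import Mathlib
import Pool.Agent.helper99.IT.Spec

set_option autoImplicit false

namespace Pool.Agent.IT

open Finset Pool.Agent.AT

open Classical in
/-- few vertices have a small degree into a uniform partner -/
lemma K4C_bad {β : Type} (G : SimpleGraph β) (η d : ℝ) (s t : Finset β) (hd : 0 ≤ d) (hη1 : η ≤ 1)
    (hu : G.IsUniform η s t) (hdd : d + η ≤ (G.edgeDensity s t : ℝ)) :
    (#{x ∈ s | (#{y ∈ t | G.Adj x y} : ℝ) < d * #t} : ℝ) ≤ #s * η := by
  by_contra! h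
  have h1 := hu (filter_subset _ _) Subset.rfl h.le (mul_le_of_le_one_right (Nat.cast_nonneg _) hη1)
  rw [abs_sub_lt_iff] at h1
  have h2 : (G.edgeDensity {x ∈ s | (#{y ∈ t | G.Adj x y} : ℝ) < d * #t} t : ℝ) ≤ d := by
    rw [SimpleGraph.edgeDensity_def]
    push_cast
    refine div_le_of_le_mul₀ (by positivity) hd ?_
    refine (Nat.cast_le.2 <| (card_le_card <| subset_of_eq (Rel.interedges_eq_biUnion _)).trans
      card_biUnion_le).trans ?_
    simp_rw [Nat.cast_sum, card_map]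
    have h3 : ∑ x ∈ {x ∈ s | (#{y ∈ t | G.Adj x y} : ℝ) < d * #t}, (#{y ∈ t | G.Adj x y} : ℝ) ≤
        ∑ x ∈ {x ∈ s | (#{y ∈ t | G.Adj x y} : ℝ) < d * #t}, d * #t :=
      sum_le_sum fun x hx => (mem_filter.1 hx).2.le
    refine h3.trans (le_of_eq ?_)
    rw [sum_const, nsmul_eq_mul]
    ring
  linarith [h1.2]

open Classical in
/-- large subsets of a uniform pair -/
lemma K4C_unif {β : Type} (G : SimpleGraph β) (η : ℝ) (s t s' t' : Finset β) (hη : 0 < η)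
    (hη8 : η ≤ 1 / 8) (hu : G.IsUniform (η ^ 2) s t) (hd : 4 * η ≤ (G.edgeDensity s t : ℝ))
    (hs : s' ⊆ s) (ht : t' ⊆ t) (hs3 : 3 * η * #s ≤ #s') (ht3 : 3 * η * #t ≤ #t') :
    G.IsUniform η s' t' ∧ 2 * η ≤ (G.edgeDensity s' t' : ℝ) := by
  have hs0 : (0 : ℝ) ≤ #s := Nat.cast_nonneg _
  have ht0 : (0 : ℝ) ≤ #t := Nat.cast_nonneg _
  have h1 : ∀ u v : Finset β, u ⊆ s' → v ⊆ t' → #s' * η ≤ #u → #t' * η ≤ #v →
      |(G.edgeDensity u v : ℝ) - (G.edgeDensity s t : ℝ)| < η ^ 2 := by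
    intro u v hu' hv' h2 h3
    refine hu (hu'.trans hs) (hv'.trans ht) ?_ ?_
    · have : 3 * η * #s * η ≤ #s' * η := mul_le_mul_of_nonneg_right hs3 hη.le
      nlinarith [mul_nonneg hs0 (sq_nonneg η)]
    · have : 3 * η * #t * η ≤ #t' * η := mul_le_mul_of_nonneg_right ht3 hη.le
      nlinarith [mul_nonneg ht0 (sq_nonneg η)]
  have hη1 : η ≤ 1 := by linarith
  have h4 := h1 s' t' Subset.rfl Subset.rfl (mul_le_of_le_one_right (Nat.cast_nonneg _) hη1)
    (mul_le_of_le_one_right (Nat.cast_nonneg _) hη1)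
  rw [abs_lt] at h4
  constructor
  · intro u hu' v hv' h2 h3
    have h5 := h1 u v hu' hv' h2 h3
    rw [abs_lt] at h5 ⊢
    constructor <;> nlinarith [h4.1, h4.2, h5.1, h5.2]
  · nlinarith [h4.1]

open Classical in
theorem K4C : K4C_stmt := by
  intro β G η V hη hη8 hV
  have hη1 : η ≤ 1 := by linarith
  have hη2 : η ^ 2 ≤ 1 / 64 := by nlinarith
  set d : ℝ := 4 * η - η ^ 2 with hd
  have hd3 : 3 * η ≤ d := by nlinarith
  have hd0 : 0 ≤ d := by nlinarith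
  let bad : Fin 4 → Finset β := fun j => {x ∈ V 0 | (#{y ∈ V j | G.Adj x y} : ℝ) < d * #(V j)}
  have hbad : ∀ j : Fin 4, 0 < j → (#(bad j) : ℝ) ≤ #(V 0) * η ^ 2 := by
    intro j hj
    exact K4C_bad G (η ^ 2) d (V 0) (V j) hd0 (by linarith) (hV 0 j hj).1
      (by rw [hd]; linarith [(hV 0 j hj).2])
  let X : Finset β := V 0 \ (bad 1 ∪ bad 2 ∪ bad 3)
  let nb : β → Fin 4 → Finset β := fun v j => {y ∈ V j | G.Adj v y}
  have hX : (1 - 3 * η ^ 2) * #(V 0) ≤ #X := by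
    have h1 : bad 1 ∪ bad 2 ∪ bad 3 ⊆ V 0 :=
      union_subset (union_subset (filter_subset _ _) (filter_subset _ _)) (filter_subset _ _)
    have h2 : (#X : ℝ) = #(V 0) - #(bad 1 ∪ bad 2 ∪ bad 3) := by
      show (#(V 0 \ (bad 1 ∪ bad 2 ∪ bad 3)) : ℝ) = _
      rw [card_sdiff_of_subset h1, Nat.cast_sub (card_le_card h1)]
    have h3 : (#(bad 1 ∪ bad 2 ∪ bad 3) : ℝ) ≤ #(bad 1) + #(bad 2) + #(bad 3) := by
      have h4 := card_union_le (bad 1 ∪ bad 2) (bad 3)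
      have h5 := card_union_le (bad 1) (bad 2)
      exact_mod_cast (by omega : #(bad 1 ∪ bad 2 ∪ bad 3) ≤ #(bad 1) + #(bad 2) + #(bad 3))
    have h6 := hbad 1 (by decide)
    have h7 := hbad 2 (by decide)
    have h8 := hbad 3 (by decide)
    rw [h2]
    linarith
  let F : β → Finset (β × β × β) := fun v => (nb v 1 ×ˢ nb v 2 ×ˢ nb v 3).filter
    fun t => G.Adj t.1 t.2.1 ∧ G.Adj t.1 t.2.2 ∧ G.Adj t.2.1 t.2.2
  have hF : ∀ v ∈ X, 20 * η ^ 6 * (#(V 1) * #(V 2) * #(V 3)) ≤ (#(F v) : ℝ) := by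
    intro v hv
    have hv1 : v ∈ V 0 ∧ v ∉ bad 1 ∪ bad 2 ∪ bad 3 := mem_sdiff.1 hv
    have hnb : ∀ j : Fin 4, v ∉ bad j → 3 * η * #(V j) ≤ (#(nb v j) : ℝ) := by
      intro j hj
      have h1 : d * #(V j) ≤ (#(nb v j) : ℝ) := by
        by_contra! h2
        exact hj (mem_filter.2 ⟨hv1.1, h2⟩)
      exact le_trans (mul_le_mul_of_nonneg_right hd3 (Nat.cast_nonneg _)) h1
    have hb := hv1.2
    simp only [mem_union, not_or] at hb
    have n1 := hnb 1 hb.1.1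
    have n2 := hnb 2 hb.1.2
    have n3 := hnb 3 hb.2
    have hsub : ∀ j, nb v j ⊆ V j := fun j => filter_subset _ _
    have u12 := K4C_unif G η (V 1) (V 2) (nb v 1) (nb v 2) hη hη8 (hV 1 2 (by decide)).1
      (hV 1 2 (by decide)).2 (hsub 1) (hsub 2) n1 n2
    have u13 := K4C_unif G η (V 1) (V 3) (nb v 1) (nb v 3) hη hη8 (hV 1 3 (by decide)).1
      (hV 1 3 (by decide)).2 (hsub 1) (hsub 3) n1 n3
    have u23 := K4C_unif G η (V 2) (V 3) (nb v 2) (nb v 3) hη hη8 (hV 2 3 (by decide)).1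
      (hV 2 3 (by decide)).2 (hsub 2) (hsub 3) n2 n3
    have h5 := SimpleGraph.triangle_counting' G u12.2 u12.1 u13.2 u13.1 u23.2 u23.1
    have h6 : (1 - 2 * η) * η ^ 3 * #(nb v 1) * #(nb v 2) * #(nb v 3) ≤ (#(F v) : ℝ) := h5
    refine le_trans ?_ h6
    have m1 : (0 : ℝ) ≤ 3 * η * #(V 1) := by positivity
    have m2 : (0 : ℝ) ≤ 3 * η * #(V 2) := by positivity
    have m3 : (0 : ℝ) ≤ 3 * η * #(V 3) := by positivity
    have h7 : (3 * η * #(V 1)) * (3 * η * #(V 2)) * (3 * η * #(V 3)) ≤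
        (#(nb v 1) : ℝ) * #(nb v 2) * #(nb v 3) :=
      mul_le_mul (mul_le_mul n1 n2 m2 (by positivity)) n3 m3 (by positivity)
    have h8 : (0 : ℝ) ≤ (1 - 2 * η) * η ^ 3 := by
      have : 0 ≤ 1 - 2 * η := by linarith
      positivity
    have h9 := mul_le_mul_of_nonneg_left h7 h8
    have h10 : (0 : ℝ) ≤ η ^ 6 * (#(V 1) * #(V 2) * #(V 3)) := by positivity
    have h11 : 20 * η ^ 6 * (#(V 1) * #(V 2) * #(V 3)) ≤
        (1 - 2 * η) * η ^ 3 * ((3 * η * #(V 1)) * (3 * η * #(V 2)) * (3 * η * #(V 3))) := by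
      have e1 : (1 - 2 * η) * η ^ 3 * ((3 * η * #(V 1)) * (3 * η * #(V 2)) * (3 * η * #(V 3))) =
          27 * (1 - 2 * η) * (η ^ 6 * (#(V 1) * #(V 2) * #(V 3))) := by ring
      have e2 : 20 * η ^ 6 * ((#(V 1) : ℝ) * #(V 2) * #(V 3)) =
          20 * (η ^ 6 * (#(V 1) * #(V 2) * #(V 3))) := by ring
      rw [e1, e2]
      exact mul_le_mul_of_nonneg_right (by linarith) h10
    calc 20 * η ^ 6 * (#(V 1) * #(V 2) * #(V 3)) ≤ _ := h11
      _ ≤ _ := h9
      _ = _ := by ring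
  have hcard : (#(X.sigma F) : ℝ) ≤
      #{x ∈ Fintype.piFinset V | ∀ i j, i < j → G.Adj (x i) (x j)} := by
    refine Nat.cast_le.2 (card_le_card_of_injOn
      (fun z : (_ : β) × (β × β × β) => (![z.1, z.2.1, z.2.2.1, z.2.2.2] : Fin 4 → β)) ?_ ?_)
    · rintro ⟨v, a, b, c⟩ hz
      rw [mem_coe, mem_sigma] at hz
      obtain ⟨hz1, hz2⟩ := hz
      simp only at hz1 hz2
      have hv0 : v ∈ V 0 := (mem_sdiff.1 hz1).1
      have h2 := mem_filter.1 hz2
      obtain ⟨h3, h4, h5, h6⟩ := h2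
      rw [mem_product, mem_product] at h3
      obtain ⟨ha, hb, hc⟩ := h3
      have ha' := mem_filter.1 ha
      have hb' := mem_filter.1 hb
      have hc' := mem_filter.1 hc
      simp only at ha' hb' hc' h4 h5 h6
      rw [mem_coe, mem_filter, Fintype.mem_piFinset]
      constructor
      · intro i
        fin_cases i
        · exact hv0
        · exact ha'.1
        · exact hb'.1
        · exact hc'.1
      · intro i j hij
        fin_cases i <;> fin_cases j <;> first | exact absurd hij (by decide) | skip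
        · exact ha'.2
        · exact hb'.2
        · exact hc'.2
        · exact h4
        · exact h5
        · exact h6
    · rintro ⟨v, a, b, c⟩ _ ⟨v', a', b', c'⟩ _ h
      have e0 := congrFun h 0
      have e1 := congrFun h 1
      have e2 := congrFun h 2
      have e3 := congrFun h 3
      simp only [Matrix.cons_val_zero, Matrix.cons_val_one, Matrix.cons_val] at e0 e1 e2 e3
      subst e0 e1 e2 e3
      rfl
  refine le_trans ?_ hcard
  rw [card_sigma, Nat.cast_sum]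
  have h1 : (#X : ℝ) * (20 * η ^ 6 * (#(V 1) * #(V 2) * #(V 3))) ≤ ∑ v ∈ X, (#(F v) : ℝ) := by
    rw [← nsmul_eq_mul]
    exact card_nsmul_le_sum X _ _ hF
  refine le_trans ?_ h1
  rw [Fin.prod_univ_four]
  have h2 : (0 : ℝ) ≤ 20 * η ^ 6 * (#(V 1) * #(V 2) * #(V 3)) := by positivity
  refine le_trans ?_ (mul_le_mul_of_nonneg_right hX h2)
  have h3 : (0 : ℝ) ≤ η ^ 6 * (#(V 0) * #(V 1) * #(V 2) * #(V 3)) := by positivity
  have e1 : (1 - 3 * η ^ 2) * (#(V 0) : ℝ) * (20 * η ^ 6 * (#(V 1) * #(V 2) * #(V 3))) =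
      20 * (1 - 3 * η ^ 2) * (η ^ 6 * (#(V 0) * #(V 1) * #(V 2) * #(V 3))) := by ring
  rw [e1]
  have h4 : (1 : ℝ) ≤ 20 * (1 - 3 * η ^ 2) := by linarith
  calc η ^ 6 * ((#(V 0) : ℝ) * #(V 1) * #(V 2) * #(V 3)) =
      1 * (η ^ 6 * (#(V 0) * #(V 1) * #(V 2) * #(V 3))) := by ring
    _ ≤ _ := mul_le_mul_of_nonneg_right h4 h3

end Pool.Agent.IT
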